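import Pool.Agent.H83.AG.Frost
import Pool.Graph.R_pool_sql_team_seeded_3dad9d7b.NH64.DS.Defs

/-! # Frostman measures on Borel subsets of the line -/

set_option autoImplicit false

open MeasureTheory Metric Set
open scoped ENNReal NNReal

namespace Pool.Agent.H83.DS

open Pool.Agent.W778.AG Pool.Agent.W342.AG Pool.Agent.H83.AG Pool.Agent.NH64.DS

theorem frob (A : Set ℝ) (hA : MeasurableSet A) (s : ℝ) (hs : 0 < s)
    (hd : ENNReal.ofReal s < dimH A) :
    ∃ (L : ℝ) (K : Set ℝ) (μ : Measure ℝ) (C : ℝ), 0 < L ∧ IsCompact K ∧ K ⊆ Icc (-1) 1 ∧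
      (∀ x ∈ K, L * x ∈ A) ∧ IsProbabilityMeasure μ ∧ μ Kᶜ = 0 ∧ 0 < C ∧ Fros μ s C := by
  set ψ : ℝ → En 1 := fun a => WithLp.toLp 2 (fun _ => a) with hψ
  set φ : En 1 → ℝ := fun x => x 0 with hφ
  have hφc : Continuous φ := by rw [hφ]; fun_prop
  have hdist : ∀ x y : En 1, dist x y = |φ x - φ y| := by
    intro x y
    rw [EuclideanSpace.dist_eq]
    simp only [Finset.univ_unique, Fin.default_eq_zero, Finset.sum_singleton]
    rw [Real.dist_eq, sq_abs, Real.sqrt_sq_eq_abs]
  have hφψ : ∀ a, φ (ψ a) = a := fun a => rfl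
  have hψφ : ∀ x, ψ (φ x) = x := by
    intro x
    ext i
    have : i = 0 := Subsingleton.elim _ _
    rw [this]
  have hiso : Isometry ψ := Isometry.of_dist_eq fun a b => by
    rw [hdist, Real.dist_eq, hφψ, hφψ]
  set E : Set (En 1) := φ ⁻¹' A with hE
  have hEm : MeasurableSet E := hφc.measurable hA
  have hEi : E = ψ '' A := by
    ext x
    constructor
    · intro hx
      exact ⟨φ x, hx, hψφ x⟩
    · rintro ⟨a, ha, rfl⟩
      exact ha
  have hdE : dimH E = dimH A := by
    rw [hEi, hiso.dimH_image]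
  obtain ⟨K1, hK1E, hK1c, hK1d⟩ := cap 1 E hEm s hs.le (by rw [hdE]; exact hd)
  obtain ⟨C, ν, hC, hν, hνK, hfr⟩ := frostman K1 hK1c s hs hK1d
  obtain ⟨L0, hL0⟩ := (hK1c.image hφc).isBounded.subset_closedBall 0
  set L : ℝ := max L0 1 with hL
  have hLpos : 0 < L := lt_of_lt_of_le one_pos (le_max_right _ _)
  set g : En 1 → ℝ := fun x => φ x / L with hg
  have hgc : Continuous g := hφc.div_const _
  have hKL : ∀ x ∈ K1, |φ x| ≤ L := by
    intro x hx
    have := hL0 ⟨x, hx, rfl⟩
    rw [mem_closedBall, Real.dist_eq, sub_zero] at this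
    exact this.trans (le_max_left _ _)
  refine ⟨L, g '' K1, ν.map g, C * L ^ s, hLpos, hK1c.image hgc, ?_, ?_, ?_, ?_, by positivity, ?_⟩
  · rintro _ ⟨x, hx, rfl⟩
    have := hKL x hx
    rw [hg, mem_Icc, ← abs_le]
    show |φ x / L| ≤ 1
    rw [abs_div, abs_of_pos hLpos, div_le_one hLpos]
    exact this
  · rintro _ ⟨x, hx, rfl⟩
    have : L * g x = φ x := by
      show L * (φ x / L) = φ x
      field_simp
    rw [this]
    exact hK1E hx
  · exact Measure.isProbabilityMeasure_map hgc.measurable.aemeasurable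
  · rw [Measure.map_apply hgc.measurable (hK1c.image hgc).isClosed.measurableSet.compl]
    refine measure_mono_null ?_ hνK
    intro x hx hxK
    exact hx ⟨x, hxK, rfl⟩
  · intro x r hr
    rw [Measure.map_apply hgc.measurable isClosed_closedBall.measurableSet]
    have hsub : g ⁻¹' closedBall x r ⊆ closedBall (ψ (L * x)) (L * r) := by
      intro y hy
      rw [mem_preimage, mem_closedBall, Real.dist_eq] at hy
      rw [mem_closedBall, hdist, hφψ]
      have : φ y - L * x = L * (g y - x) := by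
        show φ y - L * x = L * (φ y / L - x)
        field_simp
      rw [this, abs_mul, abs_of_pos hLpos]
      exact mul_le_mul_of_nonneg_left hy hLpos.le
    refine (measure_mono hsub).trans ((hfr _ _ (by positivity)).trans (le_of_eq ?_))
    rw [Real.mul_rpow hLpos.le hr.le, mul_assoc]

end Pool.Agent.H83.DS
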